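import Pool.Agent.Y205.AV.Main
import Pool.Agent.Y536.SH.Full
import Pool.Agent.Y536.SH.Tame
import Pool.Agent.TH885.CO.Plus

set_option autoImplicit false

/-!
# Large classes, their Weyl group orbits, and simple points

The theorem `Pool.Agent.Y205.AV.all_vectors` for a vector on some of the points, with simple points
at the others.
-/

namespace Pool.Agent.Y939.WN

open MvPolynomial Pool.Agent.W609 Pool.Agent.W609.CR Pool.Agent.TH167 Pool.Agent.TH167.SH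
  Pool.Agent.H932R3 Pool.Agent.TH442.NF

/-- The class `(d; w)` is large: there are a set `S` of points and a number `μ` such that `w i ≤ μ`
for `i ∈ S`, `w i ≤ 1` for `i ∉ S`, and
`∑_S w i + 4 |(d + 2).choose 2 - ∑_S (w i + 1).choose 2| ≥ 25000 (μ + 1) ^ 2`. -/
def Large {n : ℕ} (d : ℕ) (w : Fin n → ℕ) : Prop :=
  ∃ (S : Finset (Fin n)) (μ : ℕ), (∀ i ∈ S, w i ≤ μ) ∧ (∀ i ∉ S, w i ≤ 1) ∧
    25000 * ((μ : ℤ) + 1) ^ 2 ≤ ∑ i ∈ S, (w i : ℤ) +
      4 * |((d + 2).choose 2 : ℤ) - ∑ i ∈ S, ((w i + 1).choose 2 : ℤ)|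

theorem gap_eq {n : ℕ} (w : Fin n → ℕ) (d : ℕ) :
    (Pool.Agent.Y205.AV.gap w d : ℤ) =
      2 * |((d + 2).choose 2 : ℤ) - ∑ i, ((w i + 1).choose 2 : ℤ)| := by
  have h1 := Pool.Agent.Y205.AV.two_sum w
  have h2 : 2 * (d + 2).choose 2 = (d + 1) * (d + 2) := Pool.Agent.TH2.NU.two_choose (d + 1)
  obtain ⟨a, ha⟩ : ∃ a, a = (d + 2).choose 2 := ⟨_, rfl⟩
  obtain ⟨b, hb⟩ : ∃ b, b = ∑ i, (w i + 1).choose 2 := ⟨_, rfl⟩
  have hb' : ∑ i, ((w i + 1).choose 2 : ℤ) = (b : ℤ) := by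
    rw [hb]
    push_cast
    rfl
  have hg : Pool.Agent.Y205.AV.gap w d = (2 * a - 2 * b) + (2 * b - 2 * a) := by
    unfold Pool.Agent.Y205.AV.gap
    rw [ha, hb, h1, h2]
  rw [hb', ← ha, hg]
  rcases abs_cases ((a : ℤ) - (b : ℤ)) with ⟨h, h3⟩ | ⟨h, h3⟩ <;> omega

/-- Large classes have the expected dimension at generic points. -/
theorem large_exp {n : ℕ} {d : ℕ} {w : Fin n → ℕ} (h : Large d w)
    {K : Type} [Field K] [CharZero K] {P : Fin n → Fin 2 → K}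
    (hP : AlgebraicIndependent ℚ (fun ij : Fin n × Fin 2 => P ij.1 ij.2)) : ExpDim K w P d := by
  classical
  obtain ⟨S, μ, hS, h1, h2⟩ := h
  obtain ⟨e, he⟩ : ∃ e : Fin S.card ↪ Fin n, Finset.univ.map e = S :=
    ⟨(S.orderEmbOfFin rfl).toEmbedding, S.map_orderEmbOfFin_univ rfl⟩
  have hmem : ∀ j, e j ∈ S := fun j => by
    have h3 : e j ∈ Finset.univ.map e := Finset.mem_map.2 ⟨j, Finset.mem_univ _, rfl⟩
    rw [he] at h3
    exact h3
  have hsum : ∀ f : Fin n → ℤ, ∑ j, f (e j) = ∑ i ∈ S, f i := by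
    intro f
    have h3 : ∑ i ∈ Finset.univ.map e, f i = ∑ j, f (e j) := Finset.sum_map _ _ _
    rw [← h3, he]
  obtain ⟨F, hF, hF'⟩ := Pool.Agent.Y205.AV.all_vectors fun j => w (e j)
  have h3 := Pool.Agent.TH885.CO.exp_plus e (w := w) (d := d)
    (fun i hi => h1 i (by rw [← he]; exact hi))
    ⟨F, hF, fun Q hQ => hF' Q hQ d μ (fun j => hS _ (hmem j)) (by
      have h4 := gap_eq (fun j => w (e j)) d
      have h5 := hsum fun i => (w i : ℤ)
      have h6 := hsum fun i => ((w i + 1).choose 2 : ℤ)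
      rw [← h5, ← h6] at h2
      have h7 : ((25000 * (μ + 1) ^ 2 : ℕ) : ℤ) ≤
          ((∑ j, w (e j) + 2 * Pool.Agent.Y205.AV.gap (fun j => w (e j)) d : ℕ) : ℤ) := by
        push_cast
        rw [h4]
        linarith
      exact_mod_cast h7)⟩ hP
  have h4 : Module.finrank K ↥(Pool.Agent.TH167.SHDefs.sys P d w) =
      (d + 2).choose 2 - ∑ j, (w j + 1).choose 2 := by
    rw [Pool.Agent.TH885.CO.sys_eq]
    exact h3
  exact h4

/-- The Weyl group orbit of a standard large class. -/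
theorem orbit_large {n : ℕ} (hn : 4 ≤ n) {K : Type} [Field K] [CharZero K] {P : Fin n → Fin 2 → K}
    (hP : AlgebraicIndependent ℚ (fun ij : Fin n × Fin 2 => P ij.1 ij.2)) {d : ℕ} {w : Fin n → ℕ}
    {d' : ℕ} {w' : Fin n → ℕ} (h : Ch (cls d w) (cls d' w'))
    (hs : Pool.Agent.Y536.SH.Standard d' w') (hG : Large d' w') : ExpDim K w P d :=
  up_enef hP h (enef_of_std hn P hs) (large_exp hG hP)

end Pool.Agent.Y939.WN
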