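import Pool.Agent.TH146.MN.Few2
import Pool.Agent.TH603.Sur.Forms

/-! Emptiness for arbitrary multiplicities, with a loss which depends on the largest one only. -/

set_option autoImplicit false

namespace Pool.Agent.Y939.WN

open Finset Pool.Agent.TH176.Nag Pool.Agent.TH603.Sur

/-- rounding down in groups of sixteen -/
theorem round_sum {a : ℕ → ℕ} (ha : Monotone a) {ρ : ℕ} (hρ : ρ ≤ 15) (q : ℕ) :
    ∑ j ∈ range (ρ + 16 * q), a j ^ 2 ≤
      16 * ∑ g ∈ range q, a (ρ + 16 * g) ^ 2 + 15 * a (ρ + 16 * q) ^ 2 := by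
  induction q with
  | zero =>
    rw [mul_zero, add_zero, range_zero, sum_empty, mul_zero, zero_add]
    calc ∑ j ∈ range ρ, a j ^ 2 ≤ ∑ _j ∈ range ρ, a ρ ^ 2 :=
          sum_le_sum fun j hj => Nat.pow_le_pow_left (ha (mem_range.1 hj).le) 2
      _ = ρ * a ρ ^ 2 := by rw [sum_const, card_range, smul_eq_mul]
      _ ≤ 15 * a ρ ^ 2 := Nat.mul_le_mul_right _ hρ
  | succ q ih =>
    have e1 : ρ + 16 * (q + 1) = (ρ + 16 * q) + 16 := by ring
    rw [e1, sum_range_add, sum_range_succ (n := q)]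
    have h2 : ∑ t ∈ range 16, a (ρ + 16 * q + t) ^ 2 ≤
        a (ρ + 16 * q) ^ 2 + 15 * a (ρ + 16 * q + 16) ^ 2 := by
      rw [sum_range_succ' (n := 15)]
      have h3 : ∑ t ∈ range 15, a (ρ + 16 * q + (t + 1)) ^ 2 ≤
          15 * a (ρ + 16 * q + 16) ^ 2 := by
        calc ∑ t ∈ range 15, a (ρ + 16 * q + (t + 1)) ^ 2 ≤
            ∑ _t ∈ range 15, a (ρ + 16 * q + 16) ^ 2 :=
              sum_le_sum fun t ht => Nat.pow_le_pow_left (ha (by
                have := mem_range.1 ht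
                omega)) 2
          _ = 15 * a (ρ + 16 * q + 16) ^ 2 := by rw [sum_const, card_range, smul_eq_mul]
      rw [add_zero]
      omega
    omega

/-- emptiness for arbitrary multiplicities -/
theorem emp_arb {ι : Type} [Fintype ι] {F : ι → ℕ} {B e : ℕ} (hB1 : 1 ≤ B)
    (hpos : ∀ x, 1 ≤ F x) (hB : ∀ x, F x ≤ B) (h : e ^ 2 + 52 * B ^ 2 ≤ ∑ x, F x ^ 2) :
    Emp F (TZ e) := by
  classical
  obtain ⟨N, hN⟩ : ∃ N, N = Fintype.card ι := ⟨_, rfl⟩
  obtain ⟨σ, hσ⟩ : ∃ σ : Fin N ≃ ι, Monotone (fun j => F (σ j)) := by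
    let e0 : ι ≃ Fin N := Fintype.equivFinOfCardEq hN.symm
    refine ⟨(Tuple.sort fun j => F (e0.symm j)).trans e0.symm, ?_⟩
    exact Tuple.monotone_sort fun j => F (e0.symm j)
  obtain ⟨a, ha⟩ : ∃ a : ℕ → ℕ, ∀ j, a j = if hj : j < N then F (σ ⟨j, hj⟩) else B :=
    ⟨fun j => if hj : j < N then F (σ ⟨j, hj⟩) else B, fun _ => rfl⟩
  have ha1 : ∀ (j : ℕ) (hj : j < N), a j = F (σ ⟨j, hj⟩) := fun j hj => by rw [ha, dif_pos hj]
  have haB : ∀ j, a j ≤ B := by
    intro j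
    rw [ha]
    split_ifs with hj
    · exact hB _
    · exact le_rfl
  have hapos : ∀ j, 1 ≤ a j := by
    intro j
    rw [ha]
    split_ifs with hj
    · exact hpos _
    · exact hB1
  have hmono : Monotone a := by
    intro i j hij
    by_cases hj : j < N
    · rw [ha1 j hj, ha1 i (by omega)]
      exact hσ hij
    · rw [ha j, dif_neg hj]
      exact haB i
  obtain ⟨q, hq⟩ : ∃ q, q = N / 16 := ⟨_, rfl⟩
  obtain ⟨ρ, hρ⟩ : ∃ ρ, ρ = N % 16 := ⟨_, rfl⟩
  have hNq : ρ + 16 * q = N := by rw [hρ, hq]; omega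
  have hsum : ∑ x, F x ^ 2 = ∑ j ∈ range N, a j ^ 2 := by
    rw [sum_range, ← Equiv.sum_comp σ]
    exact sum_congr rfl fun j _ => by rw [ha1 j j.2]
  have hround := round_sum hmono (ρ := ρ) (by omega) q
  rw [hNq, ← hsum] at hround
  have hB2 : a N ^ 2 ≤ B ^ 2 := Nat.pow_le_pow_left (haB _) 2
  obtain ⟨v, hv⟩ : ∃ v : Fin q × Fin 16 → ℕ, ∀ p, v p = a (ρ + 16 * (p.1 : ℕ)) :=
    ⟨fun p => a (ρ + 16 * (p.1 : ℕ)), fun _ => rfl⟩
  have hvsum : ∑ p, v p ^ 2 = 16 * ∑ g ∈ range q, a (ρ + 16 * g) ^ 2 := by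
    rw [Fintype.sum_prod_type, sum_range, mul_sum]
    refine sum_congr rfl fun g _ => ?_
    simp only [hv, sum_const, card_univ, Fintype.card_fin, smul_eq_mul]
  have hmain : e ^ 2 + 37 * B ^ 2 ≤ ∑ p, v p ^ 2 := by
    rw [hvsum]
    omega
  have hB0 : 0 < B ^ 2 := by positivity
  have hq1 : 0 < q := by
    by_contra hcon
    have : q = 0 := by omega
    rw [hvsum, this, range_zero, sum_empty] at hmain
    omega
  have hne : Nonempty (Fin q × Fin 16) := ⟨(⟨0, hq1⟩, 0)⟩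
  -- the index set of the rounded vector
  have hlt : ∀ p : Fin q × Fin 16, ρ + 16 * (p.1 : ℕ) + (p.2 : ℕ) < N := by
    intro p
    have h1 := p.1.2
    have h2 := p.2.2
    omega
  refine Emp_emb (w := v) (fun p : Fin q × Fin 16 => σ ⟨ρ + 16 * (p.1 : ℕ) + (p.2 : ℕ), hlt p⟩)
    ?_ ?_ ?_
  · intro p p' hp
    have h1 := congrArg Fin.val (σ.injective hp)
    simp only at h1
    have h2 := p.2.2
    have h3 := p'.2.2
    exact Prod.ext (Fin.ext (by omega)) (Fin.ext (by omega))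
  · intro p
    rw [hv, ← ha1 _ (hlt p)]
    exact hmono (Nat.le_add_right _ _)
  · obtain ⟨c, hc⟩ : ∃ c : ℝ, c = √(∑ p, (v p : ℝ) ^ 2) := ⟨_, rfl⟩
    have hS0 : (0 : ℝ) ≤ ∑ p, (v p : ℝ) ^ 2 := sum_nonneg fun i _ => sq_nonneg _
    have hc2 : c ^ 2 = ∑ p, (v p : ℝ) ^ 2 := by rw [hc]; exact Real.sq_sqrt hS0
    have hc0 : 0 ≤ c := by rw [hc]; exact Real.sqrt_nonneg _
    have hmainR : (e : ℝ) ^ 2 + 37 * (B : ℝ) ^ 2 ≤ c ^ 2 := by
      rw [hc2]
      exact_mod_cast hmain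
    have hBR : (1 : ℝ) ≤ B := by exact_mod_cast hB1
    have hec : (e : ℝ) < c := by
      refine lt_of_pow_lt_pow_left₀ 2 hc0 ?_
      nlinarith
    have h6 : 6 * (B : ℝ) ≤ c := by
      refine le_of_sq_le_sq ?_ hc0
      nlinarith [sq_nonneg (e : ℝ)]
    have hv1 : ∀ p, (1 : ℝ) ≤ v p := fun p => by
      rw [hv]
      exact_mod_cast hapos _
    have hvB : ∀ p, (v p : ℝ) ≤ B := fun p => by
      rw [hv]
      exact_mod_cast haB _
    obtain ⟨p0, -, hp0⟩ := exists_max_image (univ : Finset (Fin q × Fin 16))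
      (fun p => (v p : ℝ)) univ_nonempty
    have hU := Pool.Agent.TH146.MN.U_rep (Fintype.card (Fin q × Fin 16))
      (fun p : Fin q × Fin 16 => (v p : ℝ)) (v p0 : ℝ) le_rfl (fun p => by linarith [hv1 p])
      (fun p => hp0 p (mem_univ _)) ⟨p0, rfl⟩ (by
        intro p
        have h1 : Fintype.card (Fin 16) ≤
            Fintype.card {j : Fin q × Fin 16 // (v j : ℝ) = v p} :=
          Fintype.card_le_of_injective (fun t => ⟨(p.1, t), by rw [hv, hv]⟩) (by
            intro t t' ht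
            have h2 := congrArg Subtype.val ht
            exact congrArg Prod.snd h2)
        rwa [Fintype.card_fin] at h1)
    exact Pool.Agent.TH146.MN.star_rep' (x := fun p : Fin q × Fin 16 => (v p : ℝ)) (c := c)
      (W := (v p0 : ℝ)) (fun p => by linarith [hv1 p]) hne (by linarith [hv1 p0])
      (by linarith [hvB p0]) hc2.symm hU v e (by
        intro p
        have h5 := hv1 p
        have := mul_lt_mul_of_pos_left hec (show (0 : ℝ) < v p by linarith)
        linarith)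

end Pool.Agent.Y939.WN
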